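import Mathlib
import Pool.Agent.Work.MP_ce2d68_st.Interface

/-! Block TRL: translation between algebraic integers and polynomials. -/

set_option autoImplicit false

open Polynomial Filter Topology
open scoped ComplexConjugate

namespace Pool.Agent.Work.MP_ce2d68_st.helper39

lemma cp_ne {P : ℤ[X]} (hP : P ≠ 0) : cp P ≠ 0 := by
  unfold cp
  exact (Polynomial.map_ne_zero_iff (RingHom.injective_int _)).2 hP

lemma mem_rts {P : ℤ[X]} (hP : P ≠ 0) (z : ℂ) : z ∈ rts P ↔ aeval z P = 0 := by
  unfold rts
  rw [Multiset.mem_toFinset, mem_roots (cp_ne hP), IsRoot.def, cp, eval_map]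
  rfl

lemma not_X_of_ne {P : ℤ[X]} {α : ℂ} (h : aeval α P = 0) (hα : α ≠ 0) : P ≠ X := by
  rintro rfl
  rw [aeval_X] at h
  exact hα h

lemma MM_one_le {P : ℤ[X]} (hP : P ≠ 0) : 1 ≤ MM P := by
  unfold MM cp
  exact Polynomial.one_le_mahlerMeasure_of_ne_zero hP

theorem stmt_TRL (hBAS : Stmt_BAS) : Stmt_TRL := by
  refine ⟨?_, ?_⟩
  · rintro θ α ⟨hint, h0, hru, hsec⟩
    have hm := minpoly.monic hint
    have hirr := minpoly.irreducible hint
    have hne : minpoly ℤ α ≠ 0 := hm.ne_zero
    have hroot : aeval α (minpoly ℤ α) = 0 := minpoly.aeval ℤ α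
    have hMM : 1 < MM (minpoly ℤ α) := by
      refine lt_of_le_of_ne (MM_one_le hne) fun h => ?_
      have hz : α ∈ (minpoly ℤ α).aroots ℂ := by
        rw [mem_aroots]
        exact ⟨hne, hroot⟩
      obtain ⟨n, hn, hn1⟩ := Polynomial.pow_eq_one_of_mahlerMeasure_eq_one
        (p := minpoly ℤ α) (by rw [MM, cp] at h; exact h.symm) h0 hz
      exact hru n hn hn1
    refine ⟨⟨hm, hirr, not_X_of_ne hroot h0, ?_, hMM⟩, ?_, (mem_rts hne α).2 hroot⟩
    · intro z hz
      exact hsec z ((mem_rts hne z).1 hz)
    · unfold nM lv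
      change MM (minpoly ℤ α) ^ (1 / ((minpoly ℤ α).natDegree : ℝ)) = _
      rw [Real.rpow_def_of_pos (by linarith)]
      congr 1
      rw [mul_one_div]
  · rintro θ P ⟨hm, hirr, hX, hsec, hMM⟩
    obtain ⟨b1, b2, b3, b4, b5⟩ := hBAS P hm hirr
    have hne : P ≠ 0 := hm.ne_zero
    refine ⟨?_, ?_⟩
    · rw [← Finset.card_pos, b3]
      exact b1
    · intro α hα
      have hroot := (mem_rts hne α).1 hα
      have hint : IsIntegral ℤ α := ⟨P, hm, by rw [← aeval_def]; exact hroot⟩
      have hmin : minpoly ℤ α = P := by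
        have hd := minpoly.isIntegrallyClosed_dvd hint hroot
        have hirr2 := minpoly.irreducible hint
        have ha : Associated (minpoly ℤ α) P := hirr2.associated_of_dvd hirr hd
        exact Polynomial.eq_of_monic_of_associated (minpoly.monic hint) hm ha
      have h0 : α ≠ 0 := by
        rintro rfl
        apply hX
        have hd : X ∣ P := by
          rw [X_dvd_iff]
          have : ((P.coeff 0 : ℤ) : ℂ) = 0 := by
            rw [← hroot, ← coeff_zero_eq_aeval_zero']
            rfl
          exact_mod_cast this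
        have ha : Associated (X : ℤ[X]) P := Polynomial.irreducible_X.associated_of_dvd hirr hd
        exact (Polynomial.eq_of_monic_of_associated monic_X hm ha).symm
      refine ⟨⟨hint, h0, ?_, ?_⟩, hmin⟩
      · intro n hn hn1
        have hdvd : P ∣ (X ^ n - 1 : ℤ[X]) := by
          rw [← hmin]
          apply minpoly.isIntegrallyClosed_dvd hint
          rw [map_sub, map_pow, aeval_X, map_one, hn1, sub_self]
        have hall : ∀ a ∈ rts P, ‖a‖ = 1 := by
          intro a ha
          have h1 := (mem_rts hne a).1 ha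
          have h2 : aeval a (X ^ n - 1 : ℤ[X]) = 0 := by
            obtain ⟨q, hq⟩ := hdvd
            rw [hq, map_mul, h1, zero_mul]
          rw [map_sub, map_pow, aeval_X, map_one, sub_eq_zero] at h2
          exact Complex.norm_eq_one_of_pow_eq_one h2 hn.ne'
        have hlog : Real.log (MM P) = 0 := by
          rw [b5]
          apply Finset.sum_eq_zero
          intro a ha
          rw [hall a ha]
          simp [Real.posLog]
        have := Real.log_pos hMM
        linarith
      · intro β hβ
        rw [hmin] at hβ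
        exact hsec β ((mem_rts hne β).2 hβ)

end Pool.Agent.Work.MP_ce2d68_st.helper39
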